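import Mathlib
import Pool.Agent.R180.MCore

set_option autoImplicit false

/-!
# MP_a4d28a_co, Q1: the dual `M*` of the 8-vertex neighborly 3-sphere `M` is not a 3-complex

`result`: no 3-complex in any `ℝⁿ` is combinatorially equivalent to `M*`.
-/

namespace Pool.Agent.Results.MP_a4d28a_co.NotThreeComplex

open Pool.Agent.R180.MStar

/-- Euclidean `n`-space. -/
abbrev E (n : ℕ) := EuclideanSpace ℝ (Fin n)

/-- The twenty facets of `M`; the vertices `A, B, C, D, E, F, G, H` are `0, 1, …, 7`: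
`ABCD, ABCF, ABDF, ACDG, ACFH, ACGH, ADEF, ADEG, AEFH, AEGH, BCDH, BCEF, BCEH, BDFG, BDGH,
BEFG, BEGH, CDGH, CEFH, DEFG`. -/
def facets : Fin 20 → Finset (Fin 8) :=
  ![{0, 1, 2, 3}, {0, 1, 2, 5}, {0, 1, 3, 5}, {0, 2, 3, 6}, {0, 2, 5, 7}, {0, 2, 6, 7},
    {0, 3, 4, 5}, {0, 3, 4, 6}, {0, 4, 5, 7}, {0, 4, 6, 7}, {1, 2, 3, 7}, {1, 2, 4, 5},
    {1, 2, 4, 7}, {1, 3, 5, 6}, {1, 3, 6, 7}, {1, 4, 5, 6}, {1, 4, 6, 7}, {2, 3, 6, 7},
    {2, 4, 5, 7}, {3, 4, 5, 6}]

/-- The nonempty faces of `M`. -/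
def IsFaceOfM (s : Finset (Fin 8)) : Prop := s.Nonempty ∧ ∃ i, s ⊆ facets i

/-- The face poset of `M*`: the nonempty faces of `M`, ordered by reverse inclusion. -/
abbrev MStarPoset := {s : Finset (Fin 8) // IsFaceOfM s}ᵒᵈ

/-- The dimension of a set: that of its affine hull. -/
noncomputable def dim {n : ℕ} (X : Set (E n)) : ℕ := Module.finrank ℝ (vectorSpan ℝ X)

/-- A 3-complex in `ℝⁿ`: a finite family of convex polytopes, closed under taking (nonempty)
faces, any two members of which meet in a common (possibly empty) face, and whose members have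
largest dimension `3`. The faces of a convex polytope `X` are `∅` and the sets of maximizers on
`X` of the linear functionals (`X` itself is the face of the functional `0`), that is, the sets
`Y` with `IsExposed ℝ X Y`. It does not matter whether the family contains the empty set. -/
structure IsThreeComplex {n : ℕ} (𝒞 : Set (Set (E n))) : Prop where
  finite : 𝒞.Finite
  polytope : ∀ X ∈ 𝒞, ∃ s : Finset (E n), X = convexHull ℝ (s : Set (E n))
  faces : ∀ X ∈ 𝒞, ∀ Y, IsExposed ℝ X Y → Y.Nonempty → Y ∈ 𝒞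
  inter : ∀ X ∈ 𝒞, ∀ Y ∈ 𝒞, IsExposed ℝ X (X ∩ Y) ∧ IsExposed ℝ Y (X ∩ Y)
  dim_le : ∀ X ∈ 𝒞, dim X ≤ 3
  dim_eq : ∃ X ∈ 𝒞, dim X = 3

/-- `M*` is combinatorially equivalent to the complex `𝒞`: the face poset of `M*` is isomorphic
to the nonempty members of `𝒞` ordered by inclusion. -/
def IsEquivMStar {n : ℕ} (𝒞 : Set (Set (E n))) : Prop :=
  Nonempty (MStarPoset ≃o {X : Set (E n) // X ∈ 𝒞 ∧ X.Nonempty})

variable {n : ℕ}

/-- a nonempty polytope has an exposed vertex -/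
lemma exists_vertex (X : Set (E n)) (s : Finset (E n)) (hX : X = convexHull ℝ (s : Set (E n)))
    (hne : X.Nonempty) : ∃ x ∈ X, IsExposed ℝ X {x} := by
  have hc : IsCompact X := by rw [hX]; exact s.finite_toSet.isCompact_convexHull ℝ
  obtain ⟨x0, hx0, hmax⟩ := hc.exists_isMaxOn hne continuous_norm.continuousOn
  have hmax' : ∀ y ∈ X, ‖y‖ ≤ ‖x0‖ := fun y hy => hmax hy
  refine ⟨x0, hx0, fun _ => ⟨innerSL ℝ x0, ?_⟩⟩
  have hle : ∀ y ∈ X, inner ℝ x0 y ≤ ‖x0‖ * ‖x0‖ := by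
    intro y hy
    calc inner ℝ x0 y ≤ ‖x0‖ * ‖y‖ := real_inner_le_norm _ _
      _ ≤ ‖x0‖ * ‖x0‖ := mul_le_mul_of_nonneg_left (hmax' y hy) (norm_nonneg _)
  have hself : inner ℝ x0 x0 = ‖x0‖ * ‖x0‖ := real_inner_self_eq_norm_mul_norm x0
  ext x
  simp only [Set.mem_singleton_iff, Set.mem_ofPred_eq, innerSL_apply_apply]
  constructor
  · rintro rfl
    exact ⟨hx0, fun y hy => by rw [hself]; exact hle y hy⟩
  · rintro ⟨hx, hx'⟩
    have h1 := hx' x0 hx0
    rw [hself] at h1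
    have h2 := hmax' x hx
    have h3 : ‖x - x0‖ * ‖x - x0‖ = ‖x‖ * ‖x‖ - 2 * inner ℝ x x0 + ‖x0‖ * ‖x0‖ :=
      norm_sub_mul_self_real x x0
    have h4 : ‖x‖ * ‖x‖ ≤ ‖x0‖ * ‖x0‖ :=
      mul_self_le_mul_self (norm_nonneg _) h2
    rw [real_inner_comm] at h1
    have h5 : ‖x - x0‖ * ‖x - x0‖ ≤ 0 := by linarith
    have h6 : ‖x - x0‖ = 0 := by
      have := mul_self_nonneg ‖x - x0‖
      exact mul_self_eq_zero.1 (le_antisymm h5 this)
    exact sub_eq_zero.1 (norm_eq_zero.1 h6)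

lemma facets_card : ∀ i, (facets i).card = 4 := by decide

lemma facets_nonempty : ∀ i, (facets i).Nonempty := by decide

lemma edge_facet : ∀ A B : Fin 8, ∃ i, A ∈ facets i ∧ B ∈ facets i := by decide +kernel

/-- **`M*` is not a 3-complex**: no 3-complex in any `ℝⁿ` is combinatorially equivalent to
`M*`. -/
theorem result (n : ℕ) (𝒞 : Set (Set (E n))) (h𝒞 : IsThreeComplex 𝒞) : ¬ IsEquivMStar 𝒞 := by
  classical
  rintro ⟨e⟩
  -- the members corresponding to the faces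
  have hfac : ∀ i, IsFaceOfM (facets i) := fun i => ⟨facets_nonempty i, i, subset_rfl⟩
  have hvert : ∀ A : Fin 8, IsFaceOfM {A} := by
    intro A
    obtain ⟨i, hi, -⟩ := edge_facet A A
    exact ⟨Finset.singleton_nonempty _, i, by simpa using hi⟩
  let X : {s : Finset (Fin 8) // IsFaceOfM s} → Set (E n) := fun s => (e (OrderDual.toDual s)).1
  have hX𝒞 : ∀ s, X s ∈ 𝒞 := fun s => (e (OrderDual.toDual s)).2.1
  have hXne : ∀ s, (X s).Nonempty := fun s => (e (OrderDual.toDual s)).2.2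
  have hXle : ∀ s t, X s ⊆ X t ↔ t.1 ⊆ s.1 := by
    intro s t
    have h1 : e (OrderDual.toDual s) ≤ e (OrderDual.toDual t) ↔
        OrderDual.toDual s ≤ OrderDual.toDual t := e.le_iff_le
    rw [OrderDual.toDual_le_toDual] at h1
    exact h1
  -- cells
  let Y : Fin 8 → Set (E n) := fun A => X ⟨{A}, hvert A⟩
  -- vertices
  have hpt : ∀ i, ∃ x, X ⟨facets i, hfac i⟩ = {x} := by
    intro i
    obtain ⟨s, hs⟩ := h𝒞.polytope _ (hX𝒞 ⟨facets i, hfac i⟩)
    obtain ⟨x, hx, hx'⟩ := exists_vertex _ s hs (hXne _)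
    have hmem : ({x} : Set (E n)) ∈ 𝒞 :=
      h𝒞.faces _ (hX𝒞 _) _ hx' (Set.singleton_nonempty x)
    obtain ⟨t, ht⟩ := e.surjective ⟨{x}, hmem, Set.singleton_nonempty x⟩
    have htX : X (OrderDual.ofDual t) = {x} := by
      show (e (OrderDual.toDual (OrderDual.ofDual t))).1 = {x}
      rw [OrderDual.toDual_ofDual, ht]
    have hsub : X (OrderDual.ofDual t) ⊆ X ⟨facets i, hfac i⟩ := by
      rw [htX]; simpa using hx
    have h1 := (hXle _ _).1 hsub
    obtain ⟨-, j, hj⟩ := (OrderDual.ofDual t).2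
    have h2 : facets i = facets j := Finset.eq_of_subset_of_card_le (h1.trans hj)
      (by rw [facets_card, facets_card])
    have h3 : (OrderDual.ofDual t).1 = facets i := by
      apply Finset.Subset.antisymm
      · rw [h2]; exact hj
      · exact h1
    refine ⟨x, ?_⟩
    rw [← htX]
    congr 1
    exact Subtype.ext h3.symm
  choose p hp using hpt
  have hpY : ∀ i A, p i ∈ Y A ↔ A ∈ facets i := by
    intro i A
    have h1 := hXle ⟨facets i, hfac i⟩ ⟨{A}, hvert A⟩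
    rw [hp i] at h1
    simpa [Y] using h1
  -- supporting functionals
  have hL : ∀ A B : Fin 8, ∃ L : (ℝ × E n) →ₗ[ℝ] ℝ,
      (∀ x ∈ Y A ∩ Y B, L (1, x) = 0) ∧ (∀ x ∈ Y A, x ∉ Y B → 0 < L (1, x)) := by
    intro A B
    obtain ⟨i, hA, hB⟩ := edge_facet A B
    have hne : (Y A ∩ Y B).Nonempty := ⟨p i, (hpY i A).2 hA, (hpY i B).2 hB⟩
    obtain ⟨l, hl⟩ := (h𝒞.inter (Y A) (hX𝒞 _) (Y B) (hX𝒞 _)).1 hne
    obtain ⟨z, hz⟩ := hne
    have hz' : ∀ y ∈ Y A, l y ≤ l z := by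
      rw [hl] at hz; exact hz.2
    refine ⟨(l z) • LinearMap.fst ℝ ℝ (E n) - (l : E n →ₗ[ℝ] ℝ) ∘ₗ LinearMap.snd ℝ ℝ (E n),
      ?_, ?_⟩
    · intro x hx
      have hxA := hx.1
      rw [hl] at hx
      have h1 := hx.2 z hz.1
      have h2 := hz' x hxA
      simp only [LinearMap.sub_apply, LinearMap.smul_apply, LinearMap.fst_apply,
        LinearMap.comp_apply, LinearMap.snd_apply, smul_eq_mul, mul_one]
      exact sub_eq_zero.2 (le_antisymm h1 h2)
    · intro x hxA hxB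
      have h1 : x ∉ Y A ∩ Y B := fun h => hxB h.2
      rw [hl] at h1
      have h2 : ∃ y ∈ Y A, l x < l y := by
        by_contra hcon
        push Not at hcon
        exact h1 ⟨hxA, hcon⟩
      obtain ⟨y, hy, hlt⟩ := h2
      have h3 := hz' y hy
      simp only [LinearMap.sub_apply, LinearMap.smul_apply, LinearMap.fst_apply,
        LinearMap.comp_apply, LinearMap.snd_apply, smul_eq_mul, mul_one]
      have h4 : l x < l z := lt_of_lt_of_le hlt h3
      exact sub_pos.2 h4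
  choose L hL0 hL1 using hL
  let P : Fin 20 → ℝ × E n := fun i => (1, p i)
  have hff : ∀ i, fac i = facets i := fun i => rfl
  have hhull : ∀ A, convexHull ℝ (pts P A) ⊆ {v : ℝ × E n | v.1 = 1 ∧ v.2 ∈ Y A} := by
    intro A
    apply convexHull_min
    · rintro v ⟨i, hi, rfl⟩
      exact ⟨rfl, (hpY i A).2 hi⟩
    · have hc : Convex ℝ (Y A) := by
        obtain ⟨s, hs⟩ := h𝒞.polytope _ (hX𝒞 ⟨{A}, hvert A⟩)
        show Convex ℝ (X ⟨{A}, hvert A⟩)
        rw [hs]; exact convex_convexHull ℝ _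
      intro v hv w hw a b ha hb hab
      refine ⟨?_, hc hv.2 hw.2 ha hb hab⟩
      show a • v.1 + b • w.1 = 1
      rw [hv.1, hw.1, smul_eq_mul, smul_eq_mul, mul_one, mul_one, hab]
  have hdata : Data (LinearMap.fst ℝ ℝ (E n)) P L := by
    refine ⟨fun _ => rfl, ?_, ?_, ?_, ?_⟩
    · intro A B i hA hB
      exact hL0 A B _ ⟨(hpY i A).2 hA, (hpY i B).2 hB⟩
    · intro A B i hA hB
      exact hL1 A B _ ((hpY i A).2 hA) (fun hh => hB ((hpY i B).1 hh))
    · intro A B q _ hqA hqB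
      obtain ⟨h1, h2⟩ := hhull A hqA
      obtain ⟨-, h3⟩ := hhull B hqB
      obtain ⟨t, x⟩ := q
      simp only at h1 h2 h3
      subst h1
      exact hL0 A B x ⟨h2, h3⟩
    · intro A
      obtain ⟨i0, hi0, -⟩ := edge_facet A A
      have hle : Submodule.span ℝ (pts P A) ≤ Submodule.span ℝ {P i0} ⊔
          Submodule.map (LinearMap.inr ℝ ℝ (E n)) (vectorSpan ℝ (Y A)) := by
        rw [Submodule.span_le]
        rintro v ⟨i, hi, rfl⟩
        have h1 : P i = P i0 + LinearMap.inr ℝ ℝ (E n) (p i - p i0) := by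
          simp [P]
        rw [h1]
        refine Submodule.add_mem_sup (Submodule.mem_span_singleton_self _) ⟨_, ?_, rfl⟩
        exact vsub_mem_vectorSpan ℝ ((hpY i A).2 hi) ((hpY i0 A).2 hi0)
      have h1 := Submodule.finrank_mono hle
      have h2 := Submodule.finrank_add_le_finrank_add_finrank (Submodule.span ℝ {P i0})
        (Submodule.map (LinearMap.inr ℝ ℝ (E n)) (vectorSpan ℝ (Y A)))
      have h3 : Module.finrank ℝ (Submodule.span ℝ {P i0}) ≤ 1 := by
        have := finrank_span_le_card (R := ℝ) ({P i0} : Set (ℝ × E n))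
        simpa using this
      have h4 := Submodule.finrank_map_le (LinearMap.inr ℝ ℝ (E n)) (vectorSpan ℝ (Y A))
      have h5 : Module.finrank ℝ (vectorSpan ℝ (Y A)) ≤ 3 := h𝒞.dim_le _ (hX𝒞 _)
      omega
  exact no_data hdata

end Pool.Agent.Results.MP_a4d28a_co.NotThreeComplex
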